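import Pool.Agent.TH812.GV5.Cover

/-!
Curves with high contact orders in very general complete intersection surfaces.
-/

set_option autoImplicit false

open MvPolynomial FF Pool.Agent.W603.LV Pool.Agent.W603.PV Pool.Agent.TH145.GH
  Pool.Agent.TH145.MG Pool.Agent.W602.GT Pool.Agent.W603.CZ

namespace Pool.Agent.TH812.GV5

open Pool.Agent.TH812.GV Pool.Agent.TH812.GV2 Pool.Agent.TH812.GV3 Pool.Agent.TH812.GV4

/-- The height inequality for curves with high contact orders with the boundary. -/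
theorem contact {F0 k : Type} [Field F0] [Field k] [Algebra F0 k] [IsAlgClosed k] [CharZero k]
    {n m : ℕ} {ι : Type} [Fintype ι] (hn : n = m + Fintype.card ι)
    (G : ι → MvPolynomial (Fin (n + 1)) F0) (e : ι → ℕ) (hG : ∀ j, (G j).IsHomogeneous (e j))
    {α : Type} [Fintype α] [DecidableEq α] (H : α → MvPolynomial (Fin (n + 1)) k) (d : α → ℕ)
    (hH : ∀ a, (H a).IsHomogeneous (d a)) (I0 : α → Fin (n + 1) →₀ ℕ)
    (hI0 : ∀ a, (H a).coeff (I0 a) ≠ 0)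
    (hgen : AlgebraicIndependent F0 fun p : {p : α × (Fin (n + 1) →₀ ℕ) //
      p.2.degree = d p.1 ∧ p.2 ≠ I0 p.1} => (H p.1.1).coeff p.1.2 / (H p.1.1).coeff (I0 p.1.1))
    (E : Finset α)
    (hsm : ∀ y : Fin (n + 1) → k, y ≠ 0 → (∀ j, aeval y (G j) = 0) →
      (∀ a ∈ E, eval y (H a) = 0) →
      LinearIndependent k fun (j : ι) (l : Fin (n + 1)) => aeval y (pderiv l (G j)))
    (hz : E.card + 2 ≤ m) (hs : ∑ j, ((e j - 1 : ℕ) : ℤ) ≤ 1 ∨ E.card + 3 ≤ m)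
    (ν : α → ℕ) (hν : ∀ b ∉ E, 1 ≤ ν b)
    {q : ℕ} (hq : 1 ≤ q) (heq : ∀ j, e j ≤ q) (hdq : ∀ a ∈ E, d a ≤ q)
    (L : Type) [Field L] [Algebra k L] [IsFF k L] (x : Fin (n + 1) → L)
    (hnc : ∀ (c : L) (y : Fin (n + 1) → k), x ≠ c • fun l => algebraMap k L (y l))
    (hxG : ∀ j, aeval x (map (algebraMap F0 k) (G j)) = 0)
    (hxE : ∀ a, aeval x (H a) = 0 ↔ a ∈ E)
    (hc : ∀ b ∉ E, ∀ P : Place k L, d b * pord P x < P.ord (aeval x (H b)) →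
      d b * pord P x + ν b ≤ P.ord (aeval x (H b))) {c : ℚ}
    (hcd : c = (∑ a ∈ E, (d a : ℚ)) + E.card - 2 * m + min 2 (∑ j, ((e j - 1 : ℕ) : ℚ)) +
      ∑ b ∈ Eᶜ, (d b : ℚ) * (1 - 1 / ν b)) :
    (q * c + 1) * pht k x ≤ q * canDeg k L ∨
    ((∑ a ∈ E, (d a : ℤ)) + E.card - 2 * m + min 2 (∑ j, ((e j - 1 : ℕ) : ℤ)) < -1 ∧
      ∃ y : Fin (n + 1) → L, (∀ c : L, y ≠ c • x) ∧
        (∀ j, ∀ u v : L, aeval (u • x + v • y) (map (algebraMap F0 k) (G j)) = 0) ∧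
        ∀ a ∈ E, ∀ u v : L, aeval (u • x + v • y) (H a) = 0) := by
  have hx0 : x ≠ 0 := by
    intro h
    apply hnc 0 0
    rw [h, zero_smul]
  rcases final_line' hn G e hG H d hH I0 hI0 hgen E hsm hz hs hq heq hdq L x hnc hxG hxE with h | h
  · left
    have h1 := ncard_contact (k := k) (fun b : {b // b ∉ E} => H b) (fun b => d b)
      (fun b => ν b) (fun b => hH b) (fun b => hν b b.2) hx0
      (fun b h => b.2 ((hxE b).1 h)) (fun b P hP => hc b b.2 P hP)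
    obtain ⟨N, hN⟩ : ∃ N : ℕ, N = (meetsAny (k := k) (fun a : {a // a ∉ E} => H a)
      (fun a => d a) x).ncard := ⟨_, rfl⟩
    rw [← hN] at h h1
    have h2 : ((q : ℚ) * ((∑ a, (d a : ℚ)) + E.card - 2 * m +
        min 2 (∑ j, ((e j - 1 : ℕ) : ℚ))) + 1) * pht k x ≤ q * (N + canDeg k L) := by
      exact_mod_cast h
    have h3 : (∑ a, (d a : ℚ)) = ∑ a ∈ E, (d a : ℚ) + ∑ b : {b // b ∉ E}, (d b : ℚ) := by
      rw [← Finset.sum_add_sum_compl E fun a => (d a : ℚ)]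
      congr 1
      exact (Finset.sum_subtype Eᶜ (fun b => Finset.mem_compl) fun b => (d b : ℚ))
    have h4 : ∑ b ∈ Eᶜ, (d b : ℚ) * (1 - 1 / ν b) =
        ∑ b : {b // b ∉ E}, (d b : ℚ) - ∑ b : {b // b ∉ E}, (d b : ℚ) / ν b := by
      rw [← Finset.sum_sub_distrib, Finset.sum_subtype Eᶜ (fun b => Finset.mem_compl)
        fun b => (d b : ℚ) * (1 - 1 / ν b)]
      refine Finset.sum_congr rfl fun b _ => ?_
      ring
    rw [h4] at hcd
    rw [h3] at h2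
    have hq0 : (0 : ℚ) ≤ q := by positivity
    have h5 := mul_le_mul_of_nonneg_left h1 hq0
    rw [hcd]
    linarith
  · exact Or.inr h

/-- Curves with high contact orders in very general complete intersection surfaces. -/
theorem contact_surface {F0 k : Type} [Field F0] [Field k] [Algebra F0 k] [IsAlgClosed k]
    [CharZero k] {n m : ℕ} {ι : Type} [Fintype ι] (hn : n = m + Fintype.card ι)
    (G : ι → MvPolynomial (Fin (n + 1)) F0) (e : ι → ℕ) (hG : ∀ j, (G j).IsHomogeneous (e j))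
    (he : ∀ j, 1 ≤ e j) (hV : ∑ j, (e j - 1) ≤ 1)
    {α : Type} [Fintype α] [DecidableEq α] (H : α → MvPolynomial (Fin (n + 1)) k) (d : α → ℕ)
    (hH : ∀ a, (H a).IsHomogeneous (d a)) (I0 : α → Fin (n + 1) →₀ ℕ)
    (hI0 : ∀ a, (H a).coeff (I0 a) ≠ 0)
    (hgen : AlgebraicIndependent F0 fun p : {p : α × (Fin (n + 1) →₀ ℕ) //
      p.2.degree = d p.1 ∧ p.2 ≠ I0 p.1} => (H p.1.1).coeff p.1.2 / (H p.1.1).coeff (I0 p.1.1))
    (E : Finset α)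
    (hsm : ∀ y : Fin (n + 1) → k, y ≠ 0 → (∀ j, aeval y (G j) = 0) →
      (∀ a ∈ E, eval y (H a) = 0) →
      LinearIndependent k fun (j : ι) (l : Fin (n + 1)) => aeval y (pderiv l (G j)))
    (hdim : m = E.card + 2) (ν : α → ℕ) (hν : ∀ b ∉ E, 1 ≤ ν b)
    {q : ℕ} (hq : 1 ≤ q) (heq : ∀ j, e j ≤ q) (hdq : ∀ a ∈ E, d a ≤ q) {κX κ : ℚ}
    (hκX : κX = ∑ j, (e j : ℚ) + ∑ a ∈ E, (d a : ℚ) - (n + 1))
    (hκ : κ = κX + ∑ b ∈ Eᶜ, (d b : ℚ) * (1 - 1 / ν b))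
    (L : Type) [Field L] [Algebra k L] [IsFF k L] (x : Fin (n + 1) → L)
    (hnc : ∀ (c : L) (y : Fin (n + 1) → k), x ≠ c • fun l => algebraMap k L (y l))
    (hxG : ∀ j, aeval x (map (algebraMap F0 k) (G j)) = 0)
    (hxE : ∀ a, aeval x (H a) = 0 ↔ a ∈ E)
    (hc : ∀ b ∉ E, ∀ P : Place k L, d b * pord P x < P.ord (aeval x (H b)) →
      d b * pord P x + ν b ≤ P.ord (aeval x (H b))) :
    ((q * (κ - 1) + 1) * pht k x ≤ q * canDeg k L ∧
      (2 - 2 / q ≤ κ → κ * pht k x ≤ 2 * canDeg k L)) ∨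
    (κX < 0 ∧ ∃ y : Fin (n + 1) → L, (∀ c : L, y ≠ c • x) ∧
        (∀ j, ∀ u v : L, aeval (u • x + v • y) (map (algebraMap F0 k) (G j)) = 0) ∧
        ∀ a ∈ E, ∀ u v : L, aeval (u • x + v • y) (H a) = 0) := by
  have hs : ∑ j, ((e j - 1 : ℕ) : ℤ) ≤ 1 := by exact_mod_cast hV
  have hsum : ∑ j, ((e j - 1 : ℕ) : ℚ) = ∑ j, (e j : ℚ) - Fintype.card ι := by
    rw [Finset.sum_congr rfl fun j _ => Nat.cast_sub (he j) (R := ℚ), Finset.sum_sub_distrib]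
    simp
  have hsQ : ∑ j, ((e j - 1 : ℕ) : ℚ) ≤ 1 := by exact_mod_cast hV
  have hnQ : (n : ℚ) = m + Fintype.card ι := by exact_mod_cast hn
  have hmQ : (m : ℚ) = E.card + 2 := by exact_mod_cast hdim
  have hmin : min 2 (∑ j, ((e j - 1 : ℕ) : ℚ)) = ∑ j, ((e j - 1 : ℕ) : ℚ) :=
    min_eq_right (by linarith)
  have hminZ : min 2 (∑ j, ((e j - 1 : ℕ) : ℤ)) = ∑ j, ((e j - 1 : ℕ) : ℤ) :=
    min_eq_right (by linarith)
  rcases contact hn G e hG H d hH I0 hI0 hgen E hsm (by omega) (Or.inl hs) ν hν hq heq hdq L x hnc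
    hxG hxE hc rfl with h | ⟨h, h'⟩
  · left
    rw [hmin, hsum] at h
    obtain ⟨δ, hδ⟩ : ∃ δ : ℚ, δ = ∑ b ∈ Eᶜ, (d b : ℚ) * (1 - 1 / ν b) := ⟨_, rfl⟩
    rw [← hδ] at h hκ
    have h1 : (∑ a ∈ E, (d a : ℚ)) + E.card - 2 * m + (∑ j, (e j : ℚ) - Fintype.card ι) + δ =
        κ - 1 := by
      rw [hκ, hκX, hnQ]
      linarith
    rw [h1] at h
    refine ⟨h, fun h2 => ?_⟩
    have hh : (0 : ℚ) < pht k x := by exact_mod_cast pht_pos hnc
    have hq0 : (0 : ℚ) < q := by exact_mod_cast hq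
    have h3 : κ * q ≤ 2 * (q * (κ - 1) + 1) := by
      have h4 := mul_le_mul_of_nonneg_right h2 hq0.le
      have h5 : (2 - 2 / (q : ℚ)) * q = 2 * q - 2 := by
        field_simp
      rw [h5] at h4
      linarith
    have h4 := mul_le_mul_of_nonneg_right h3 hh.le
    have h5 : q * (κ * pht k x) ≤ q * (2 * (canDeg k L : ℚ)) := by linarith
    exact le_of_mul_le_mul_left h5 hq0
  · refine Or.inr ⟨?_, h'⟩
    rw [hminZ] at h
    have h1 : (∑ a ∈ E, (d a : ℚ)) + E.card - 2 * m + ∑ j, ((e j - 1 : ℕ) : ℚ) < -1 := by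
      exact_mod_cast h
    rw [hsum] at h1
    rw [hκX, hnQ]
    linarith

end Pool.Agent.TH812.GV5
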