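import Pool.Agent.TH812.GV4.LineExt

/-!
Very general complete intersections with `c ≥ -1` contain no lines, and the height inequality for
curves with high contact orders with the boundary.
-/

set_option autoImplicit false

open MvPolynomial FF Pool.Agent.W603.LV Pool.Agent.W603.PV Pool.Agent.TH145.GH
  Pool.Agent.TH145.MG Pool.Agent.W602.GT Pool.Agent.W603.CZ

namespace Pool.Agent.TH812.GV5

open Pool.Agent.TH812.GV Pool.Agent.TH812.GV2 Pool.Agent.TH812.GV3 Pool.Agent.TH812.GV4

theorem hgt_ratX {k : Type} [Field k] [IsAlgClosed k] [CharZero k] :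
    hgt k (RatFunc.X : RatFunc k) = 1 := by
  rw [hgt_eq_finrank RatFunc.transcendental_X, RatFunc.adjoin_X,
    IntermediateField.finrank_top]
  rfl

/-- The height of a line. -/
theorem pht_line {k : Type} [Field k] [IsAlgClosed k] [CharZero k] {n : ℕ}
    {p p' : Fin (n + 1) → k} {j : Fin (n + 1)} (hj : p' j ≠ 0) :
    pht k (fun l => algebraMap k (RatFunc k) (p' l) +
      algebraMap k (RatFunc k) (p l) * RatFunc.X) ≤ 1 := by
  classical
  obtain ⟨x, hx⟩ : ∃ x : Fin (n + 1) → RatFunc k, x = fun l => algebraMap k (RatFunc k) (p' l) +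
      algebraMap k (RatFunc k) (p l) * RatFunc.X := ⟨_, rfl⟩
  rw [← hx]
  have hxj : x j ≠ 0 := by
    intro h0
    rw [hx] at h0
    have h0' : algebraMap k (RatFunc k) (p' j) +
      algebraMap k (RatFunc k) (p j) * RatFunc.X = 0 := h0
    have h1 : p j ≠ 0 := by
      intro h
      rw [h, map_zero, zero_mul, add_zero, map_eq_zero] at h0'
      exact hj h0'
    have h2 : (RatFunc.X : RatFunc k) = algebraMap k (RatFunc k) (-(p' j) / p j) := by
      rw [map_div₀, map_neg, eq_div_iff (by rw [Ne, map_eq_zero]; exact h1)]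
      linear_combination h0'
    have h5 := RatFunc.transcendental_X (K := k)
    rw [h2] at h5
    exact h5 (isAlgebraic_algebraMap _)
  have hp := pord_finite (k := k) ⟨j, hxj⟩
  obtain ⟨T0, hT0⟩ := exists_supp (k := k) (Finset.univ : Finset (Fin 1))
    ![(RatFunc.X : RatFunc k)]
  obtain ⟨T, hT⟩ : ∃ T : Finset (Place k (RatFunc k)), T = T0 ∪ hp.toFinset := ⟨_, rfl⟩
  have h1 : ∀ P : Place k (RatFunc k), P.ord (RatFunc.X : RatFunc k) ≠ 0 → P ∈ T := fun P hP => by
    rw [hT]
    exact Finset.mem_union_left _ (hT0 0 (Finset.mem_univ _) P hP)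
  rw [← hgt_ratX (k := k), hgt_finset _ T h1]
  have h2 : pht k x = ∑ P ∈ T, (- pord P x) := by
    unfold pht
    rw [finsum_eq_sum_of_support_subset (s := T), Finset.sum_neg_distrib]
    intro P hP
    rw [hT]
    exact Finset.mem_union_right _ (hp.mem_toFinset.2 hP)
  rw [h2]
  refine Finset.sum_le_sum fun P _ => ?_
  obtain ⟨l, hl, hl'⟩ := exists_pord P ⟨j, hxj⟩
  have h3 : Ge P (min 0 (P.ord (RatFunc.X : RatFunc k))) (x l) := by
    rw [hx]
    refine Ge.add ((Ge.const (p' l)).mono (min_le_left _ _)) ?_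
    have h4 : Ge P (P.ord (RatFunc.X : RatFunc k)) (RatFunc.X : RatFunc k) := Or.inr le_rfl
    have h5 := (Ge.const (P := P) (p l)).mul h4
    rw [zero_add] at h5
    exact h5.mono (min_le_right _ _)
  have h4 := h3.resolve_left hl
  rw [hl'] at h4
  omega

/-- Very general complete intersections with `c ≥ -1` contain no lines. -/
theorem no_line' {F0 k : Type} [Field F0] [Field k] [Algebra F0 k] [IsAlgClosed k] [CharZero k]
    {n m : ℕ} {ι : Type} [Fintype ι] (hn : n = m + Fintype.card ι)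
    (G : ι → MvPolynomial (Fin (n + 1)) F0) (e : ι → ℕ) (hG : ∀ j, (G j).IsHomogeneous (e j))
    {α : Type} [Fintype α] (H : α → MvPolynomial (Fin (n + 1)) k) (d : α → ℕ)
    (hH : ∀ a, (H a).IsHomogeneous (d a)) (I0 : α → Fin (n + 1) →₀ ℕ)
    (hI0 : ∀ a, (H a).coeff (I0 a) ≠ 0)
    (hgen : AlgebraicIndependent F0 fun p : {p : α × (Fin (n + 1) →₀ ℕ) //
      p.2.degree = d p.1 ∧ p.2 ≠ I0 p.1} => (H p.1.1).coeff p.1.2 / (H p.1.1).coeff (I0 p.1.1))
    (E : Finset α)
    (hsm : ∀ y : Fin (n + 1) → k, y ≠ 0 → (∀ j, aeval y (G j) = 0) →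
      (∀ a ∈ E, eval y (H a) = 0) →
      LinearIndependent k fun (j : ι) (l : Fin (n + 1)) => aeval y (pderiv l (G j)))
    (hc : -1 ≤ (∑ a ∈ E, (d a : ℤ)) + E.card - 2 * m + min 2 (∑ j, ((e j - 1 : ℕ) : ℤ)))
    {p p' : Fin (n + 1) → k} {i j : Fin (n + 1)} (hpi : p i ≠ 0) (hpj : p j = 0)
    (hp'i : p' i = 0) (hp'j : p' j ≠ 0)
    (hlG : ∀ j, aeval (fun l => algebraMap k (RatFunc k) (p' l) +
          algebraMap k (RatFunc k) (p l) * RatFunc.X) (map (algebraMap F0 k) (G j)) =
            (0 : RatFunc k))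
    (hlE : ∀ a ∈ E, aeval (fun l => algebraMap k (RatFunc k) (p' l) +
          algebraMap k (RatFunc k) (p l) * RatFunc.X) (H a) = (0 : RatFunc k)) : False := by
  classical
  have key := final hn G e hG (fun a : {a // a ∈ E} => H a) (fun a => d a) (fun a => hH a)
    (fun a => I0 a) (fun a => hI0 a)
    (hgen.comp (fun q : {p : {a // a ∈ E} × (Fin (n + 1) →₀ ℕ) //
      p.2.degree = d p.1 ∧ p.2 ≠ I0 p.1} => ⟨(q.1.1.1, q.1.2), q.2⟩) (by
        rintro ⟨⟨⟨a, ha⟩, I⟩, hq⟩ ⟨⟨⟨a', ha'⟩, I'⟩, hq'⟩ h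
        simp only [Subtype.mk.injEq, Prod.mk.injEq] at h ⊢
        exact h)) Finset.univ
    (fun y hy h1 h2 => hsm y hy h1 fun a ha => h2 ⟨a, ha⟩ (Finset.mem_univ _))
    (RatFunc k) (fun l => algebraMap k (RatFunc k) (p' l) +
      algebraMap k (RatFunc k) (p l) * RatFunc.X) (by
      intro c y h
      have e1 := congrFun h i
      have e2 := congrFun h j
      simp only [hpj, hp'i, map_zero, zero_mul, add_zero, zero_add, Pi.smul_apply,
        smul_eq_mul] at e1 e2
      have hpj' : algebraMap k (RatFunc k) (p' j) ≠ 0 := by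
        rw [Ne, map_eq_zero]; exact hp'j
      have hyj : algebraMap k (RatFunc k) (y j) ≠ 0 := by
        intro h0
        rw [h0, mul_zero] at e2
        exact hpj' e2
      have h3 : RatFunc.X * algebraMap k (RatFunc k) (p i * y j) =
          algebraMap k (RatFunc k) (p' j * y i) := by
        rw [map_mul, map_mul]
        linear_combination (algebraMap k (RatFunc k) (y j)) * e1 -
          (algebraMap k (RatFunc k) (y i)) * e2
      have hpy : p i * y j ≠ 0 := mul_ne_zero hpi fun h0 => hyj (by rw [h0, map_zero])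
      have h4 : (RatFunc.X : RatFunc k) = algebraMap k (RatFunc k) (p' j * y i / (p i * y j)) := by
        rw [map_div₀, ← h3, mul_div_cancel_right₀]
        rw [Ne, map_eq_zero]; exact hpy
      have h5 := RatFunc.transcendental_X (K := k)
      rw [h4] at h5
      exact h5 (isAlgebraic_algebraMap _)) hlG
    (fun a => ⟨fun _ => Finset.mem_univ _, fun _ => hlE a a.2⟩)
  obtain ⟨h1, h2, -⟩ := key
  have hemp : meetsAny (k := k) (fun a : {a : {a // a ∈ E} // a ∉ (Finset.univ : Finset _)} =>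
      H a) (fun a => d a) (fun l => algebraMap k (RatFunc k) (p' l) +
        algebraMap k (RatFunc k) (p l) * RatFunc.X) = ∅ := by
    rw [Set.eq_empty_iff_forall_notMem]
    rintro P ⟨a, -⟩
    exact a.2 (Finset.mem_univ _)
  rw [hemp, Set.ncard_empty, canDeg_ratFunc] at h2
  have h3 : (∑ a : {a // a ∈ E}, (d a : ℤ)) = ∑ a ∈ E, (d a : ℤ) :=
    Finset.sum_coe_sort E fun a => (d a : ℤ)
  have h4 : ((Finset.univ : Finset {a // a ∈ E}).card : ℤ) = E.card := by
    rw [Finset.card_univ, Fintype.card_coe]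
  rw [h3, h4] at h2
  have h5 := pht_line (p := p) (p' := p') (j := j) hp'j
  have h6 : pht k (fun l => algebraMap k (RatFunc k) (p' l) +
      algebraMap k (RatFunc k) (p l) * RatFunc.X) = 1 := by omega
  rw [h6] at h2
  push_cast at h2
  omega

/-- The height inequality for curves in very general pairs; the lines only occur for `c_X < -1`. -/
theorem final_line' {F0 k : Type} [Field F0] [Field k] [Algebra F0 k] [IsAlgClosed k] [CharZero k]
    {n m : ℕ} {ι : Type} [Fintype ι] (hn : n = m + Fintype.card ι)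
    (G : ι → MvPolynomial (Fin (n + 1)) F0) (e : ι → ℕ) (hG : ∀ j, (G j).IsHomogeneous (e j))
    {α : Type} [Fintype α] (H : α → MvPolynomial (Fin (n + 1)) k) (d : α → ℕ)
    (hH : ∀ a, (H a).IsHomogeneous (d a)) (I0 : α → Fin (n + 1) →₀ ℕ)
    (hI0 : ∀ a, (H a).coeff (I0 a) ≠ 0)
    (hgen : AlgebraicIndependent F0 fun p : {p : α × (Fin (n + 1) →₀ ℕ) //
      p.2.degree = d p.1 ∧ p.2 ≠ I0 p.1} => (H p.1.1).coeff p.1.2 / (H p.1.1).coeff (I0 p.1.1))
    (E : Finset α)
    (hsm : ∀ y : Fin (n + 1) → k, y ≠ 0 → (∀ j, aeval y (G j) = 0) →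
      (∀ a ∈ E, eval y (H a) = 0) →
      LinearIndependent k fun (j : ι) (l : Fin (n + 1)) => aeval y (pderiv l (G j)))
    (hz : E.card + 2 ≤ m) (hs : ∑ j, ((e j - 1 : ℕ) : ℤ) ≤ 1 ∨ E.card + 3 ≤ m)
    {q : ℕ} (hq : 1 ≤ q) (heq : ∀ j, e j ≤ q) (hdq : ∀ a ∈ E, d a ≤ q)
    (L : Type) [Field L] [Algebra k L] [IsFF k L] (x : Fin (n + 1) → L)
    (hnc : ∀ (c : L) (y : Fin (n + 1) → k), x ≠ c • fun l => algebraMap k L (y l))
    (hxG : ∀ j, aeval x (map (algebraMap F0 k) (G j)) = 0)
    (hxE : ∀ a, aeval x (H a) = 0 ↔ a ∈ E) :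
    (q * ((∑ a, (d a : ℤ)) + E.card - 2 * m + min 2 (∑ j, ((e j - 1 : ℕ) : ℤ))) + 1) *
      pht k x ≤ q * ((meetsAny (k := k) (fun a : {a // a ∉ E} => H a) (fun a => d a) x).ncard +
        canDeg k L) ∨
    ((∑ a ∈ E, (d a : ℤ)) + E.card - 2 * m + min 2 (∑ j, ((e j - 1 : ℕ) : ℤ)) < -1 ∧
      ∃ y : Fin (n + 1) → L, (∀ c : L, y ≠ c • x) ∧
        (∀ j, ∀ u v : L, aeval (u • x + v • y) (map (algebraMap F0 k) (G j)) = 0) ∧
        ∀ a ∈ E, ∀ u v : L, aeval (u • x + v • y) (H a) = 0) := by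
  have hL : CharZero L := charZero_of_injective_algebraMap (algebraMap k L).injective
  have hx0 : x ≠ 0 := by
    intro h
    apply hnc 0 0
    rw [h, zero_smul]
  rcases final_line hn G e hG H d hH I0 hI0 hgen E hsm hz hs hq heq hdq L x hnc hxG hxE with h | h
  · exact Or.inl h
  · obtain ⟨-, y, hy, hyG, hyE⟩ := h
    refine Or.inr ⟨?_, y, hy, hyG, hyE⟩
    by_contra hcE
    push Not at hcE
    -- coordinates at which the two points differ
    obtain ⟨i, j, hne⟩ : ∃ i j, x j * y i - x i * y j ≠ 0 := by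
      by_contra hcon
      push Not at hcon
      obtain ⟨l0, hl0⟩ := Function.ne_iff.1 hx0
      have hl0' : x l0 ≠ 0 := hl0
      apply hy (y l0 / x l0)
      funext l
      rw [Pi.smul_apply, smul_eq_mul, div_mul_eq_mul_div, eq_div_iff hl0']
      linear_combination hcon l l0
    obtain ⟨p, p', hpi, hpj, hp'i, hp'j, hl⟩ := line_of_scroll (k := k) (x := x) (y := y) hne
    have hcomb : ∀ t : k, (fun l => (x i * y l - x l * y i) + (x j * y l - x l * y j) *
        algebraMap k L t) = (-(y i + y j * algebraMap k L t)) • x +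
        (x i + x j * algebraMap k L t) • y := by
      intro t
      funext l
      rw [Pi.add_apply, Pi.smul_apply, Pi.smul_apply, smul_eq_mul, smul_eq_mul]
      ring
    exact no_line' hn G e hG H d hH I0 hI0 hgen E hsm hcE hpi hpj hp'i hp'j
      (fun b => hl _ fun t => by rw [hcomb]; exact hyG b _ _)
      (fun a ha => hl _ fun t => by rw [hcomb]; exact hyE a ha _ _)

/-- The number of places over the boundary for a curve with high contact orders. -/
theorem ncard_contact {k L : Type} [Field k] [IsAlgClosed k] [CharZero k] [Field L] [Algebra k L]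
    [IsFF k L] {n : ℕ} {β : Type} [Fintype β] (H : β → MvPolynomial (Fin (n + 1)) k)
    (d ν : β → ℕ) (hH : ∀ b, (H b).IsHomogeneous (d b)) (hν : ∀ b, 1 ≤ ν b)
    {x : Fin (n + 1) → L} (hx : x ≠ 0) (hxH : ∀ b, aeval x (H b) ≠ 0)
    (hc : ∀ b, ∀ P : Place k L, d b * pord P x < P.ord (aeval x (H b)) →
      d b * pord P x + ν b ≤ P.ord (aeval x (H b))) :
    ((meetsAny (k := k) H d x).ncard : ℚ) ≤ (∑ b, (d b : ℚ) / ν b) * pht k x := by
  classical
  have hL : CharZero L := charZero_of_injective_algebraMap (algebraMap k L).injective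
  have hp := pord_finite (k := k) (Function.ne_iff.1 hx)
  obtain ⟨T0, hT0⟩ := exists_supp (k := k) (Finset.univ : Finset β) (fun b => aeval x (H b))
  obtain ⟨T, hT⟩ : ∃ T : Finset (Place k L), T = T0 ∪ hp.toFinset := ⟨_, rfl⟩
  have h1 : ∀ b, ∀ P : Place k L, P.ord (aeval x (H b)) ≠ 0 → P ∈ T := fun b P hP => by
    rw [hT]
    exact Finset.mem_union_left _ (hT0 b (Finset.mem_univ _) P hP)
  have h1p : ∀ P : Place k L, pord P x ≠ 0 → P ∈ T := fun P hP => by
    rw [hT]
    exact Finset.mem_union_right _ (hp.mem_toFinset.2 hP)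
  have h2 : pht k x = - ∑ P ∈ T, pord P x := by
    unfold pht
    rw [finsum_eq_sum_of_support_subset (s := T)]
    exact fun P hP => h1p P hP
  obtain ⟨A, hA⟩ : ∃ A : Set (Place k L), A = meetsAny (k := k) H d x := ⟨_, rfl⟩
  have hAT : A ⊆ (T : Set (Place k L)) := by
    intro P hP
    rw [hA] at hP
    obtain ⟨b, hb⟩ := hP
    by_contra hcon
    have e1 : P.ord (aeval x (H b)) = 0 := by
      by_contra h
      exact hcon (h1 b P h)
    have e2 : pord P x = 0 := by
      by_contra h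
      exact hcon (h1p P h)
    rw [e1, e2, mul_zero] at hb
    exact lt_irrefl _ hb
  have hfin : A.Finite := T.finite_toSet.subset hAT
  have hsub : hfin.toFinset ⊆ T := fun P hP => hAT (hfin.mem_toFinset.1 hP)
  have hge : ∀ b (P : Place k L), (0 : ℚ) ≤ (P.ord (aeval x (H b)) : ℚ) - d b * pord P x := by
    intro b P
    have h3 := (ge_form P x (hH b) fun _ _ => Ge.const _).resolve_left (hxH b)
    have h4 : (d b : ℚ) * pord P x ≤ P.ord (aeval x (H b)) := by exact_mod_cast h3
    linarith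
  have hterm : ∀ b (P : Place k L), (0 : ℚ) ≤
      ((P.ord (aeval x (H b)) : ℚ) - d b * pord P x) / ν b := fun b P =>
    div_nonneg (hge b P) (by positivity)
  rw [← hA, Set.ncard_eq_toFinset_card _ hfin]
  have h3 : ((hfin.toFinset.card : ℕ) : ℚ) ≤ ∑ P ∈ T, ∑ b,
      ((P.ord (aeval x (H b)) : ℚ) - d b * pord P x) / ν b := by
    rw [Finset.cast_card]
    refine (Finset.sum_le_sum fun P hP => ?_).trans (Finset.sum_le_sum_of_subset_of_nonneg hsub
      fun P _ _ => Finset.sum_nonneg fun b _ => hterm b P)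
    have hPA := hfin.mem_toFinset.1 hP
    rw [hA] at hPA
    obtain ⟨b, hb⟩ := hPA
    refine le_trans ?_ (Finset.single_le_sum (f := fun b =>
      ((P.ord (aeval x (H b)) : ℚ) - d b * pord P x) / ν b) (fun b _ => hterm b P)
      (Finset.mem_univ b))
    have h4 := hc b P hb
    have h5 : (d b : ℚ) * pord P x + ν b ≤ P.ord (aeval x (H b)) := by exact_mod_cast h4
    have h6 : (0 : ℚ) < ν b := by exact_mod_cast hν b
    rw [le_div_iff₀ h6]
    linarith
  refine h3.trans (le_of_eq ?_)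
  rw [Finset.sum_comm, Finset.sum_mul]
  refine Finset.sum_congr rfl fun b _ => ?_
  rw [← Finset.sum_div, Finset.sum_sub_distrib, ← Finset.mul_sum]
  have h7 : ∑ P ∈ T, (P.ord (aeval x (H b)) : ℚ) = 0 := by
    exact_mod_cast sum_ord_finset _ T (h1 b)
  have h8 : (pht k x : ℚ) = - ∑ P ∈ T, (pord P x : ℚ) := by
    rw [h2]; push_cast; rfl
  rw [h7, h8]
  ring

end Pool.Agent.TH812.GV5
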